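import Pool.Agent.W239.AL.Arc

/-!
# Convex polygons all of whose sides are large distances
-/

namespace Pool.Agent.W239.AL.AltmanAbove

open Pool.Agent.W239.AL

lemma area_cyc (z w u : ℂ) : area z w u = area w u z := by
  unfold area
  ring

/-- `p 0, ..., p (n-1)` are the vertices of a strictly convex polygon in counterclockwise order
(every triple in this order is positively oriented; `area` is twice the signed area of the
triangle).  If all `n` sides have length at least `t`, and `k` is the number of distinct distances
of vertices that are at least `t`, then `n ≤ 2 k + 1`, so that the graph joining the vertices at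
distance at least `t` can be coloured with `2 k + 1` colours. -/
theorem result (n : ℕ) (hn : 3 ≤ n) (p : Fin n → ℂ)
    (hconv : ∀ i j k : Fin n, i < j → j < k → 0 < area (p i) (p j) (p k)) (t : ℝ)
    (hside : ∀ i j : Fin n, j.val = (i.val + 1) % n → t ≤ dist (p i) (p j)) :
    n ≤ 2 * ((Finset.univ.filter fun q : Fin n × Fin n =>
        q.1 ≠ q.2 ∧ t ≤ dist (p q.1) (p q.2)).image
          fun q : Fin n × Fin n => dist (p q.1) (p q.2)).card + 1 ∧
      (SimpleGraph.fromRel (fun a b : Fin n => t ≤ dist (p a) (p b))).Colorable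
        (2 * ((Finset.univ.filter fun q : Fin n × Fin n =>
          q.1 ≠ q.2 ∧ t ≤ dist (p q.1) (p q.2)).image
            fun q : Fin n × Fin n => dist (p q.1) (p q.2)).card + 1) := by
  have hn0 : 0 < n := by omega
  obtain ⟨T, hTdef⟩ : ∃ T, T = (Finset.univ.filter fun q : Fin n × Fin n =>
        q.1 ≠ q.2 ∧ t ≤ dist (p q.1) (p q.2)).image
          fun q : Fin n × Fin n => dist (p q.1) (p q.2) := ⟨_, rfl⟩
  rw [← hTdef]
  have hmain : n ≤ 2 * T.card + 1 := by
    let P : ℕ → ℂ := fun i => p ⟨i % n, Nat.mod_lt _ hn0⟩
    have hPlt : ∀ i (h : i < n), P i = p ⟨i, h⟩ := by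
      intro i h
      simp only [P]
      congr 1
      exact Fin.ext (Nat.mod_eq_of_lt h)
    have hPmod : ∀ i j, i % n = j % n → P i = P j := by
      intro i j h
      simp only [P]
      congr 1
      exact Fin.ext h
    have hPn : ∀ i, P (i + n) = P i := fun i => hPmod _ _ (Nat.add_mod_right i n)
    have c0 : ∀ i j k, i < j → j < k → k < n → 0 < area (P i) (P j) (P k) := by
      intro i j k h1 h2 h3
      rw [hPlt i (by omega), hPlt j (by omega), hPlt k h3]
      exact hconv _ _ _ h1 h2
    have c1 : ∀ i j k, i < n → i < j → j < k → k < i + n → 0 < area (P i) (P j) (P k) := by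
      intro i j k h0 h1 h2 h3
      by_cases hk : k < n
      · exact c0 i j k h1 h2 hk
      · have ek : P k = P (k - n) := by
          rw [← hPn (k - n)]
          congr 1
          omega
        by_cases hj : j < n
        · rw [ek, area_cyc, area_cyc]
          exact c0 (k - n) i j (by omega) h1 hj
        · have ej : P j = P (j - n) := by
            rw [← hPn (j - n)]
            congr 1
            omega
          rw [ek, ej, area_cyc]
          exact c0 (j - n) (k - n) i (by omega) (by omega) h0
    have c2 : ∀ i j k, i < 2 * n → i < j → j < k → k < i + n → 0 < area (P i) (P j) (P k) := by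
      intro i j k h0 h1 h2 h3
      by_cases hi : i < n
      · exact c1 i j k hi h1 h2 h3
      · have ei : P i = P (i - n) := by
          rw [← hPn (i - n)]
          congr 1
          omega
        have ej : P j = P (j - n) := by
          rw [← hPn (j - n)]
          congr 1
          omega
        have ek : P k = P (k - n) := by
          rw [← hPn (k - n)]
          congr 1
          omega
        rw [ei, ej, ek]
        exact c1 _ _ _ (by omega) (by omega) (by omega) (by omega)
    have hT : ∀ x y, x < y → y < x + n → t ≤ dist (P x) (P y) → dist (P x) (P y) ∈ T := by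
      intro x y h1 h2 h3
      rw [hTdef, Finset.mem_image]
      refine ⟨(⟨x % n, Nat.mod_lt _ hn0⟩, ⟨y % n, Nat.mod_lt _ hn0⟩),
        Finset.mem_filter.2 ⟨Finset.mem_univ _, ?_, h3⟩, rfl⟩
      intro he
      have he2 : x % n = y % n := congrArg Fin.val he
      have he3 : (y - x) % n = 0 := Nat.sub_mod_eq_zero_of_mod_eq he2.symm
      have he4 := Nat.mod_eq_of_lt (by omega : y - x < n)
      omega
    have hs : ∀ i, t ≤ dist (P i) (P (i + 1)) := by
      intro i
      refine hside _ _ ?_
      show (i + 1) % n = (i % n + 1) % n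
      rw [Nat.add_mod, Nat.add_mod (i % n) 1, Nat.mod_mod]
    haveI : Nonempty (Fin n) := ⟨⟨0, hn0⟩⟩
    obtain ⟨q, hq⟩ := Finite.exists_max (fun q : Fin n × Fin n => dist (p q.1) (p q.2))
    obtain ⟨a, b, hab, hD⟩ : ∃ a b : Fin n, a < b ∧
        ∀ x y : Fin n, dist (p x) (p y) ≤ dist (p a) (p b) := by
      rcases lt_trichotomy q.1 q.2 with h | h | h
      · exact ⟨q.1, q.2, h, fun x y => hq (x, y)⟩
      · exfalso
        have h1 := hq (⟨0, hn0⟩, ⟨1, by omega⟩)
        simp only at h1
        rw [h, dist_self] at h1
        have h2 := dist_le_zero.1 h1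
        have h3 := hconv ⟨0, hn0⟩ ⟨1, by omega⟩ ⟨2, by omega⟩ (by simp) (by simp)
        rw [h2] at h3
        unfold area at h3
        linarith
      · exact ⟨q.2, q.1, h, fun x y => by rw [dist_comm (p q.2)]; exact hq (x, y)⟩
    have hablt : a.val < b.val := hab
    have hbn := b.2
    have hPa : P a.val = p a := hPlt _ a.2
    have hPb : P b.val = p b := hPlt _ b.2
    have hPan : P (a.val + n) = p a := by rw [hPn, hPa]
    have hpos : 0 < dist (p a) (p b) := by
      rcases (dist_nonneg : 0 ≤ dist (p a) (p b)).lt_or_eq with h | h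
      · exact h
      · exfalso
        have h1 := hD ⟨0, hn0⟩ ⟨1, by omega⟩
        rw [← h] at h1
        have h2 := dist_le_zero.1 h1
        have h3 := hconv ⟨0, hn0⟩ ⟨1, by omega⟩ ⟨2, by omega⟩ (by simp) (by simp)
        rw [h2] at h3
        unfold area at h3
        linarith
    have hI := arcCount P a.val b.val hablt T t
      (fun i j k _ h2 h3 h4 => c2 i j k (by omega) h2 h3 (by omega))
      (by rw [hPa, hPb]; exact hpos)
      (fun i j _ _ _ => by rw [hPa, hPb]; exact hD _ _)
      (fun i _ _ => hs i) (fun x y _ h2 _ => hT x y h2 (by omega))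
    have hJ := arcCount P b.val (a.val + n) (by omega) T t
      (fun i j k h1 h2 h3 h4 => c2 i j k (by omega) h2 h3 (by omega))
      (by rw [hPan, hPb, dist_comm]; exact hpos)
      (fun i j _ _ _ => by rw [hPan, hPb, dist_comm (p b)]; exact hD _ _)
      (fun i _ _ => hs i) (fun x y _ h2 _ => hT x y h2 (by omega))
    rcases hI with hI | ⟨hI1, hI2, hI3, hI4⟩
    · rcases hJ with hJ | ⟨hJ1, _⟩ <;> omega
    · rcases hJ with hJ | ⟨hJ1, hJ2, hJ3, hJ4⟩
      · omega
      · exfalso
        rw [hPan, hPb] at hJ3
        rw [hPa, hPb] at hI3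
        have z1 : 0 < area (p a) (P (a.val + 1)) (p b) := by
          rw [← hPa, ← hPb]
          exact c2 _ _ _ (by omega) (by omega) (by omega) (by omega)
        have z2 : 0 < area (p a) (p b) (P (b.val + 1)) := by
          rw [← hPa, ← hPb]
          exact c2 _ _ _ (by omega) (by omega) (by omega) (by omega)
        refine both (p a) (p b) (P (a.val + 1)) (P (b.val + 1)) z1 z2 hI3 ?_ (hD _ _) (hD _ _)
        rw [dist_comm, hJ3, dist_comm]
  refine ⟨hmain, ?_⟩
  have h1 := SimpleGraph.colorable_of_fintype
    (SimpleGraph.fromRel (fun a b : Fin n => t ≤ dist (p a) (p b)))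
  rw [Fintype.card_fin] at h1
  exact h1.mono hmain

end Pool.Agent.W239.AL.AltmanAbove
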