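import Mathlib

/-!
# Altman's theorem above the shortest side: the descent (helper239)
-/

namespace Pool.Agent.W239.AL

/-- the descent: no stuck sub-arcs gives many values -/
lemma desc (w : ℕ → ℕ → ℝ) (T : Finset ℝ) (β : ℝ) (d : ℕ) : ∀ i : ℕ,
    (∀ x y, i ≤ x → y ≤ i + (d + 1) → x + 2 ≤ y → w (x + 1) y < w x y ∨ w x (y - 1) < w x y) →
    (∀ t, i ≤ t → t + 1 ≤ i + (d + 1) → β ≤ w t (t + 1)) →
    (∀ x y, i ≤ x → x < y → y ≤ i + (d + 1) → β ≤ w x y → w x y ∈ T) →
    β ≤ w i (i + (d + 1)) ∧ d + 1 ≤ (T.filter (· ≤ w i (i + (d + 1)))).card := by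
  induction d with
  | zero =>
    intro i _ h2 h3
    have h4 := h2 i le_rfl le_rfl
    refine ⟨h4, ?_⟩
    exact Finset.card_pos.2 ⟨w i (i + 1), Finset.mem_filter.2
      ⟨h3 i (i + 1) le_rfl (by omega) le_rfl h4, le_rfl⟩⟩
  | succ d ih =>
    intro i h1 h2 h3
    have key : ∀ v : ℝ, β ≤ v → v < w i (i + (d + 1 + 1)) → d + 1 ≤ (T.filter (· ≤ v)).card →
        β ≤ w i (i + (d + 1 + 1)) ∧
          d + 1 + 1 ≤ (T.filter (· ≤ w i (i + (d + 1 + 1)))).card := by
      intro v hv1 hv2 hv3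
      have hb : β ≤ w i (i + (d + 1 + 1)) := hv1.trans hv2.le
      refine ⟨hb, ?_⟩
      have hm : w i (i + (d + 1 + 1)) ∈ T := h3 _ _ le_rfl (by omega) le_rfl hb
      have hss : T.filter (· ≤ v) ⊂ T.filter (· ≤ w i (i + (d + 1 + 1))) := by
        refine Finset.ssubset_iff_subset_ne.2 ⟨?_, ?_⟩
        · intro z hz
          rw [Finset.mem_filter] at hz ⊢
          exact ⟨hz.1, hz.2.trans hv2.le⟩
        · intro he
          have : w i (i + (d + 1 + 1)) ∈ T.filter (· ≤ v) := by
            rw [he]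
            exact Finset.mem_filter.2 ⟨hm, le_rfl⟩
          exact absurd (Finset.mem_filter.1 this).2 (not_le.2 hv2)
      have := Finset.card_lt_card hss
      omega
    rcases h1 i (i + (d + 1 + 1)) le_rfl le_rfl (by omega) with h4 | h4
    · have e : i + (d + 1 + 1) = i + 1 + (d + 1) := by omega
      obtain ⟨h5, h6⟩ := ih (i + 1) (fun x y hx hy => h1 x y (by omega) (by omega))
        (fun t ht ht2 => h2 t (by omega) (by omega))
        (fun x y hx hxy hy => h3 x y (by omega) hxy (by omega))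
      rw [← e] at h5 h6
      exact key _ h5 h4 h6
    · have e : i + (d + 1 + 1) - 1 = i + (d + 1) := by omega
      rw [e] at h4
      obtain ⟨h5, h6⟩ := ih i (fun x y hx hy => h1 x y (by omega) (by omega))
        (fun t ht ht2 => h2 t (by omega) (by omega))
        (fun x y hx hxy hy => h3 x y (by omega) hxy (by omega))
      exact key _ h5 h4 h6

end Pool.Agent.W239.AL
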