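import Pool.Agent.W239.AL.Key
import Pool.Agent.W239.AL.Desc

/-!
# Altman's theorem above the shortest side: arcs (helper239)
-/

namespace Pool.Agent.W239.AL

lemma norm_arc (X Y : ℕ → ℝ) (s e : ℕ) (hX0 : X s = 0) (hY0 : Y s = 0) (hX1 : X e = 1)
    (hY1 : Y e = 0)
    (conv : ∀ i j k, s ≤ i → i < j → j < k → k ≤ e →
      (X j - X i) * (Y k - Y i) - (Y j - Y i) * (X k - X i) < 0)
    (hmax : ∀ i j, s ≤ i → i < j → j ≤ e → (X i - X j) ^ 2 + (Y i - Y j) ^ 2 ≤ 1)
    (x y : ℕ) (hx : s ≤ x) (hy : y ≤ e) (hxy : x + 2 ≤ y) (hne : s < x ∨ y < e)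
    (g1 : (X x - X y) ^ 2 + (Y x - Y y) ^ 2 ≤ (X (x + 1) - X y) ^ 2 + (Y (x + 1) - Y y) ^ 2)
    (g2 : (X x - X y) ^ 2 + (Y x - Y y) ^ 2 ≤ (X x - X (y - 1)) ^ 2 + (Y x - Y (y - 1)) ^ 2) :
    False := by
  have hYp : ∀ i, s < i → i < e → 0 < Y i := by
    intro i h1 h2
    have := conv s i e le_rfl h1 h2 le_rfl
    rw [hX0, hY0, hX1, hY1] at this
    linarith
  have hX1' : ∀ i, s < i → i < e → X i < 1 := by
    intro i h1 h2
    have h3 := hmax s i le_rfl h1 h2.le
    rw [hX0, hY0] at h3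
    have h4 := hYp i h1 h2
    have h5 : 0 < Y i ^ 2 := by positivity
    by_contra h6
    push Not at h6
    have h7 : 1 ≤ X i ^ 2 := by nlinarith
    nlinarith
  have hX0' : ∀ i, s < i → i < e → 0 < X i := by
    intro i h1 h2
    have h3 := hmax i e h1.le h2 le_rfl
    rw [hX1, hY1] at h3
    have h4 := hYp i h1 h2
    have h5 : 0 < Y i ^ 2 := by positivity
    by_contra h6
    push Not at h6
    have h7 : 1 ≤ (X i - 1) ^ 2 := by nlinarith
    nlinarith
  have mono : ∀ i j, s ≤ i → i < j → j ≤ e → X i < X j := by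
    intro i j h1 h2 h3
    rcases Nat.eq_or_lt_of_le h1 with h4 | h4
    · rw [← h4, hX0]
      rcases Nat.eq_or_lt_of_le h3 with h5 | h5
      · rw [h5, hX1]
        exact one_pos
      · exact hX0' j (by omega) h5
    · rcases Nat.eq_or_lt_of_le h3 with h5 | h5
      · rw [h5, hX1]
        exact hX1' i h4 (by omega)
      · by_contra h6
        push Not at h6
        have k1 := conv s i j le_rfl h4 h2 h3
        have k2 := conv i j e h1 h2 h5 le_rfl
        rw [hX0, hY0] at k1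
        rw [hX1, hY1] at k2
        have a1 := hX0' i h4 (by omega)
        have a2 := hX1' i h4 (by omega)
        have a3 := hYp i h4 (by omega)
        have a4 := hYp j (by omega) h5
        have k3 : X i * Y j < X i * Y i := by
          have : Y i * X j ≤ Y i * X i := mul_le_mul_of_nonneg_left h6 a3.le
          linarith
        have k4 : Y j < Y i := lt_of_mul_lt_mul_left k3 a1.le
        have k5 : 0 ≤ (X i - X j) * Y i := mul_nonneg (by linarith) a3.le
        have k6 : 0 < (Y i - Y j) * (1 - X i) := mul_pos (by linarith) (by linarith)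
        linarith
  have hc : s < x + 1 := by omega
  have hc' : x + 1 < e := by omega
  have hd : s < y - 1 := by omega
  have hd' : y - 1 < e := by omega
  have m1 : X x < X (x + 1) := mono _ _ hx (by omega) hc'.le
  have m2 : X (y - 1) < X y := mono _ _ hd.le (by omega) hy
  have m3 : X x < X (y - 1) := mono _ _ hx (by omega) hd'.le
  have m4 : X (x + 1) < X y := mono _ _ hc.le (by omega) hy
  have hP1 : Y x < Y (x + 1) := by
    by_contra h
    push Not at h
    have k := conv x (x + 1) y hx (by omega) (by omega) hy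
    have k1 : 0 ≤ (Y x - Y (x + 1)) * (X y - X (x + 1)) := mul_nonneg (by linarith) (by linarith)
    have k2 : (X (x + 1) - X x) * (Y y - Y (x + 1)) < 0 := by linarith
    have k3 : Y y < Y (x + 1) := by
      by_contra h3
      push Not at h3
      have := mul_nonneg (sub_nonneg.2 m1.le) (sub_nonneg.2 h3)
      linarith
    have k4 : (X (x + 1) - X y) ^ 2 < (X x - X y) ^ 2 := by
      have : 0 < (X (x + 1) - X x) * ((X y - X x) + (X y - X (x + 1))) :=
        mul_pos (by linarith) (by linarith)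
      linarith
    have k5 : (Y (x + 1) - Y y) ^ 2 ≤ (Y x - Y y) ^ 2 := by
      have : 0 ≤ (Y x - Y (x + 1)) * ((Y x - Y y) + (Y (x + 1) - Y y)) :=
        mul_nonneg (by linarith) (by linarith)
      linarith
    linarith
  have hP2 : Y y < Y (y - 1) := by
    by_contra h
    push Not at h
    have k := conv x (y - 1) y hx (by omega) (by omega) hy
    have k1 : 0 ≤ (X (y - 1) - X x) * (Y y - Y (y - 1)) := mul_nonneg (by linarith) (by linarith)
    have k2 : 0 < (Y (y - 1) - Y x) * (X y - X (y - 1)) := by linarith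
    have k3 : Y x < Y (y - 1) := by
      by_contra h3
      push Not at h3
      have := mul_nonneg (sub_nonneg.2 h3) (sub_nonneg.2 m2.le)
      linarith
    have k4 : (X x - X (y - 1)) ^ 2 < (X x - X y) ^ 2 := by
      have : 0 < (X y - X (y - 1)) * ((X y - X x) + (X (y - 1) - X x)) :=
        mul_pos (by linarith) (by linarith)
      linarith
    have k5 : (Y x - Y (y - 1)) ^ 2 ≤ (Y x - Y y) ^ 2 := by
      have : 0 ≤ (Y y - Y (y - 1)) * ((Y y - Y x) + (Y (y - 1) - Y x)) :=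
        mul_nonneg (by linarith) (by linarith)
      linarith
    linarith
  have hxx : 0 ≤ X x ∧ 0 ≤ Y x ∧ X x * Y (x + 1) ≤ Y x * X (x + 1) ∧
      (s < x → X x * Y (x + 1) < Y x * X (x + 1)) := by
    rcases Nat.eq_or_lt_of_le hx with h | h
    · rw [← h, hX0, hY0]
      refine ⟨le_rfl, le_rfl, by linarith, fun h2 => absurd h2 (lt_irrefl _)⟩
    · have k := conv s x (x + 1) le_rfl h (by omega) hc'.le
      rw [hX0, hY0] at k
      exact ⟨(hX0' x h (by omega)).le, (hYp x h (by omega)).le, by linarith, fun _ => by linarith⟩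
  have hyy : X y ≤ 1 ∧ 0 ≤ Y y ∧ (1 - X y) * Y (y - 1) ≤ Y y * (1 - X (y - 1)) ∧
      (y < e → (1 - X y) * Y (y - 1) < Y y * (1 - X (y - 1))) := by
    rcases Nat.eq_or_lt_of_le hy with h | h
    · rw [h, hX1, hY1]
      refine ⟨le_rfl, le_rfl, by linarith, fun h2 => absurd h2 (lt_irrefl _)⟩
    · have k := conv (y - 1) y e hd.le (by omega) h le_rfl
      rw [hX1, hY1] at k
      exact ⟨(hX1' y (by omega) h).le, (hYp y (by omega) h).le, by linarith, fun _ => by linarith⟩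
  have hw : 0 ≤ (X x - X (x + 1)) * (Y (y - 1) - Y (x + 1)) -
        (Y x - Y (x + 1)) * (X (y - 1) - X (x + 1)) ∧
      (X (y - 1) - X (x + 1)) * (Y y - Y (y - 1)) -
        (Y (y - 1) - Y (x + 1)) * (X y - X (y - 1)) ≤ 0 := by
    rcases Nat.eq_or_lt_of_le (by omega : x + 1 ≤ y - 1) with h | h
    · rw [← h]
      constructor <;> linarith
    · have k1 := conv x (x + 1) (y - 1) hx (by omega) h hd'.le
      have k2 := conv (x + 1) (y - 1) y hc.le h (by omega) hy
      constructor <;> linarith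
  have hcb := hmax (x + 1) e hc.le hc' le_rfl
  have hda := hmax s (y - 1) le_rfl hd hd'.le
  rw [hX1, hY1] at hcb
  rw [hX0, hY0] at hda
  refine key (X x) (Y x) (X (x + 1)) (Y (x + 1)) (X (y - 1)) (Y (y - 1)) (X y) (Y y)
    (hYp _ hc hc') (hYp _ hd hd') hxx.2.1 hyy.2.1 hxx.1 hyy.1 (hX0' _ hc hc') (hX1' _ hd hd')
    m1 m2 hP1 hP2 hxx.2.2.1 hyy.2.2.1 ?_ hw.1 hw.2 (by linarith) (by linarith) g1 g2
  rcases hne with h | h
  · exact Or.inl (hxx.2.2.2 h)
  · exact Or.inr (hyy.2.2.2 h)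

/-- twice the signed area of the triangle `z`, `w`, `u` -/
def area (z w u : ℂ) : ℝ := (w.re - z.re) * (u.im - z.im) - (w.im - z.im) * (u.re - z.re)

lemma dsq (z w : ℂ) : dist z w ^ 2 = (z.re - w.re) ^ 2 + (z.im - w.im) ^ 2 := by
  rw [Complex.dist_eq, Complex.sq_norm, Complex.normSq_apply]
  simp only [Complex.sub_re, Complex.sub_im]
  ring

lemma arc (P : ℕ → ℂ) (s e : ℕ)
    (conv : ∀ i j k, s ≤ i → i < j → j < k → k ≤ e → 0 < area (P i) (P j) (P k))
    (hpos : 0 < dist (P s) (P e))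
    (hmax : ∀ i j, s ≤ i → i < j → j ≤ e → dist (P i) (P j) ≤ dist (P s) (P e))
    (x y : ℕ) (hx : s ≤ x) (hy : y ≤ e) (hxy : x + 2 ≤ y) (hne : s < x ∨ y < e) :
    dist (P (x + 1)) (P y) < dist (P x) (P y) ∨ dist (P x) (P (y - 1)) < dist (P x) (P y) := by
  by_contra hcon
  rw [not_or, not_lt, not_lt] at hcon
  obtain ⟨h1, h2⟩ := hcon
  have sq : ∀ {z w u v : ℂ}, dist z w ≤ dist u v → dist z w ^ 2 ≤ dist u v ^ 2 :=
    fun h => pow_le_pow_left₀ dist_nonneg h 2
  obtain ⟨e1, he1⟩ : ∃ e1, e1 = (P e).re - (P s).re := ⟨_, rfl⟩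
  obtain ⟨e2, he2⟩ : ∃ e2, e2 = (P e).im - (P s).im := ⟨_, rfl⟩
  obtain ⟨L, hL⟩ : ∃ L, L = e1 ^ 2 + e2 ^ 2 := ⟨_, rfl⟩
  have hLd : dist (P s) (P e) ^ 2 = L := by
    rw [dsq, hL, he1, he2]
    ring
  have hLp : 0 < L := by
    rw [← hLd]
    positivity
  let X : ℕ → ℝ := fun i => (e1 * ((P i).re - (P s).re) + e2 * ((P i).im - (P s).im)) / L
  let Y : ℕ → ℝ := fun i => (e2 * ((P i).re - (P s).re) - e1 * ((P i).im - (P s).im)) / L
  have hd : ∀ i j, (X i - X j) ^ 2 + (Y i - Y j) ^ 2 = dist (P i) (P j) ^ 2 / L := by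
    intro i j
    rw [dsq]
    simp only [X, Y]
    have hL0 := hLp.ne'
    field_simp
    rw [hL]
    ring
  have hc : ∀ i j k, (X j - X i) * (Y k - Y i) - (Y j - Y i) * (X k - X i) =
      -(area (P i) (P j) (P k)) / L := by
    intro i j k
    unfold area
    simp only [X, Y]
    have hL0 := hLp.ne'
    field_simp
    rw [hL]
    ring
  refine norm_arc X Y s e ?_ ?_ ?_ ?_ ?_ ?_ x y hx hy hxy hne ?_ ?_
  · simp [X]
  · simp [Y]
  · simp only [X]
    rw [← he1, ← he2, div_eq_one_iff_eq hLp.ne', hL]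
    ring
  · simp only [Y]
    rw [← he1, ← he2]
    rw [div_eq_zero_iff]
    left
    ring
  · intro i j k hi hij hjk hk
    rw [hc]
    exact div_neg_of_neg_of_pos (by linarith [conv i j k hi hij hjk hk]) hLp
  · intro i j hi hij hj
    rw [hd, div_le_one hLp, ← hLd]
    exact sq (hmax i j hi hij hj)
  · rw [hd, hd]
    exact div_le_div_of_nonneg_right (sq h1) hLp.le
  · rw [hd, hd]
    exact div_le_div_of_nonneg_right (sq h2) hLp.le

lemma arcCount (P : ℕ → ℂ) (s e : ℕ) (hse : s < e) (T : Finset ℝ) (t : ℝ)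
    (conv : ∀ i j k, s ≤ i → i < j → j < k → k ≤ e → 0 < area (P i) (P j) (P k))
    (hpos : 0 < dist (P s) (P e))
    (hmax : ∀ i j, s ≤ i → i < j → j ≤ e → dist (P i) (P j) ≤ dist (P s) (P e))
    (hside : ∀ i, s ≤ i → i + 1 ≤ e → t ≤ dist (P i) (P (i + 1)))
    (hT : ∀ x y, s ≤ x → x < y → y ≤ e → t ≤ dist (P x) (P y) → dist (P x) (P y) ∈ T) :
    e - s ≤ T.card ∨ (e - s ≤ T.card + 1 ∧ s + 2 ≤ e ∧
      dist (P (s + 1)) (P e) = dist (P s) (P e) ∧ dist (P s) (P (e - 1)) = dist (P s) (P e)) := by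
  by_cases hst : ∀ x y, s ≤ x → y ≤ e → x + 2 ≤ y →
      dist (P (x + 1)) (P y) < dist (P x) (P y) ∨ dist (P x) (P (y - 1)) < dist (P x) (P y)
  · left
    have e1 : s + (e - s - 1 + 1) = e := by omega
    have := desc (fun x y => dist (P x) (P y)) T t (e - s - 1) s
      (fun x y hx hy hxy => hst x y hx (by omega) hxy) (fun i hi hi2 => hside i hi (by omega))
      (fun x y hx hxy hy => hT x y hx hxy (by omega))
    have h2 := this.2.trans (Finset.card_filter_le _ _)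
    omega
  · right
    push Not at hst
    obtain ⟨x, y, hx, hy, hxy, h1, h2⟩ := hst
    have hxs : x = s := by
      by_contra hne
      rcases arc P s e conv hpos hmax x y hx hy hxy (Or.inl (by omega)) with h3 | h3
      · exact absurd h1 (not_le.2 h3)
      · exact absurd h2 (not_le.2 h3)
    have hye : y = e := by
      by_contra hne
      rcases arc P s e conv hpos hmax x y hx hy hxy (Or.inr (by omega)) with h3 | h3
      · exact absurd h1 (not_le.2 h3)
      · exact absurd h2 (not_le.2 h3)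
    subst hxs hye
    refine ⟨?_, hxy, le_antisymm (hmax _ _ (by omega) (by omega) le_rfl) h1,
      le_antisymm (hmax _ _ le_rfl (by omega) (by omega)) h2⟩
    have := desc (fun x y => dist (P x) (P y)) T t (y - x - 2) (x + 1)
      (fun x' y' hx' hy' hxy' => arc P x y conv hpos hmax x' y' (by omega) (by omega) hxy'
        (Or.inl (by omega))) (fun i hi hi2 => hside i (by omega) (by omega))
      (fun x' y' hx' hxy' hy' => hT x' y' (by omega) hxy' (by omega))
    have h2 := this.2.trans (Finset.card_filter_le _ _)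
    omega

/-- both arcs cannot be stuck -/
lemma both (A B Z W : ℂ) (hz : 0 < area A Z B) (hw : 0 < area A B W)
    (h1 : dist Z B = dist A B) (h2 : dist A W = dist A B) (h3 : dist Z W ≤ dist A B)
    (h4 : dist W B ≤ dist A B) : False := by
  have q1 := congrArg (· ^ 2) h1
  have q2 := congrArg (· ^ 2) h2
  have q3 := pow_le_pow_left₀ dist_nonneg h3 2
  rw [dsq, dsq] at q1 q2 q3
  unfold area at hz hw
  obtain ⟨e1, he1⟩ : ∃ e1, e1 = B.re - A.re := ⟨_, rfl⟩
  obtain ⟨e2, he2⟩ : ∃ e2, e2 = B.im - A.im := ⟨_, rfl⟩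
  obtain ⟨z1, hz1⟩ : ∃ z1, z1 = Z.re - A.re := ⟨_, rfl⟩
  obtain ⟨z2, hz2⟩ : ∃ z2, z2 = Z.im - A.im := ⟨_, rfl⟩
  obtain ⟨w1, hw1⟩ : ∃ w1, w1 = W.re - A.re := ⟨_, rfl⟩
  obtain ⟨w2, hw2⟩ : ∃ w2, w2 = W.im - A.im := ⟨_, rfl⟩
  rw [← he1, ← he2, ← hz1, ← hz2] at hz
  rw [← he1, ← he2, ← hw1, ← hw2] at hw
  have r1 : (z1 - e1) ^ 2 + (z2 - e2) ^ 2 = e1 ^ 2 + e2 ^ 2 := by
    rw [hz1, hz2, he1, he2]
    linarith
  have r2 : w1 ^ 2 + w2 ^ 2 = e1 ^ 2 + e2 ^ 2 := by
    rw [hw1, hw2, he1, he2]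
    linarith
  have r3 : (z1 - w1) ^ 2 + (z2 - w2) ^ 2 ≤ e1 ^ 2 + e2 ^ 2 := by
    rw [hz1, hz2, he1, he2, hw1, hw2]
    linarith
  clear q1 q2 q3 he1 he2 hz1 hz2 hw1 hw2 h1 h2 h3 h4
  -- <z, e - w> <= 0
  have r4 : z1 * (e1 - w1) + z2 * (e2 - w2) ≤ 0 := by linarith
  have r5 : 0 ≤ e1 ^ 2 + e2 ^ 2 - (w1 * e1 + w2 * e2) := by
    have : 0 ≤ (w1 - e1) ^ 2 + (w2 - e2) ^ 2 := by positivity
    linarith
  have r6 : 0 ≤ z1 * e1 + z2 * e2 := by
    have : 0 ≤ z1 ^ 2 + z2 ^ 2 := by positivity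
    linarith
  have r7 : 0 ≤ (z1 * e1 + z2 * e2) * (e1 ^ 2 + e2 ^ 2 - (w1 * e1 + w2 * e2)) := mul_nonneg r6 r5
  have r8 : 0 < (z1 * e2 - z2 * e1) * (e1 * w2 - e2 * w1) := mul_pos hz hw
  have r9 : (e1 ^ 2 + e2 ^ 2) * (z1 * (e1 - w1) + z2 * (e2 - w2)) =
      (z1 * e1 + z2 * e2) * (e1 ^ 2 + e2 ^ 2 - (w1 * e1 + w2 * e2)) +
        (z1 * e2 - z2 * e1) * (e1 * w2 - e2 * w1) := by ring
  have r10 : (e1 ^ 2 + e2 ^ 2) * (z1 * (e1 - w1) + z2 * (e2 - w2)) ≤ 0 :=
    mul_nonpos_of_nonneg_of_nonpos (by positivity) r4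
  linarith

end Pool.Agent.W239.AL
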