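import Pool.Agent.W239.AL.Arc

/-!
# Large distance graphs of convex polygons: arcs of classes (helper239)
-/

namespace Pool.Agent.W239.AL

lemma norm_arc2 (X Y : ℕ → ℝ) (s e : ℕ) (hX0 : X s = 0) (hY0 : Y s = 0) (hX1 : X e = 1)
    (hY1 : Y e = 0)
    (conv : ∀ i j k, s ≤ i → i < j → j < k → k ≤ e →
      (X j - X i) * (Y k - Y i) - (Y j - Y i) * (X k - X i) < 0)
    (hmax : ∀ i j, s ≤ i → i < j → j ≤ e → (X i - X j) ^ 2 + (Y i - Y j) ^ 2 ≤ 1)
    (x c d y : ℕ) (hx : s ≤ x) (hy : y ≤ e) (hxc : x < c) (hcd : c ≤ d) (hdy : d < y)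
    (hne : s < x ∨ y < e)
    (g1 : (X x - X y) ^ 2 + (Y x - Y y) ^ 2 ≤ (X c - X y) ^ 2 + (Y c - Y y) ^ 2)
    (g2 : (X x - X y) ^ 2 + (Y x - Y y) ^ 2 ≤ (X x - X d) ^ 2 + (Y x - Y d) ^ 2) :
    False := by
  have hYp : ∀ i, s < i → i < e → 0 < Y i := by
    intro i h1 h2
    have := conv s i e le_rfl h1 h2 le_rfl
    rw [hX0, hY0, hX1, hY1] at this
    linarith
  have hX1' : ∀ i, s < i → i < e → X i < 1 := by
    intro i h1 h2
    have h3 := hmax s i le_rfl h1 h2.le
    rw [hX0, hY0] at h3
    have h4 := hYp i h1 h2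
    have h5 : 0 < Y i ^ 2 := by positivity
    by_contra h6
    push Not at h6
    have h7 : 1 ≤ X i ^ 2 := by nlinarith
    nlinarith
  have hX0' : ∀ i, s < i → i < e → 0 < X i := by
    intro i h1 h2
    have h3 := hmax i e h1.le h2 le_rfl
    rw [hX1, hY1] at h3
    have h4 := hYp i h1 h2
    have h5 : 0 < Y i ^ 2 := by positivity
    by_contra h6
    push Not at h6
    have h7 : 1 ≤ (X i - 1) ^ 2 := by nlinarith
    nlinarith
  have mono : ∀ i j, s ≤ i → i < j → j ≤ e → X i < X j := by
    intro i j h1 h2 h3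
    rcases Nat.eq_or_lt_of_le h1 with h4 | h4
    · rw [← h4, hX0]
      rcases Nat.eq_or_lt_of_le h3 with h5 | h5
      · rw [h5, hX1]
        exact one_pos
      · exact hX0' j (by omega) h5
    · rcases Nat.eq_or_lt_of_le h3 with h5 | h5
      · rw [h5, hX1]
        exact hX1' i h4 (by omega)
      · by_contra h6
        push Not at h6
        have k1 := conv s i j le_rfl h4 h2 h3
        have k2 := conv i j e h1 h2 h5 le_rfl
        rw [hX0, hY0] at k1
        rw [hX1, hY1] at k2
        have a1 := hX0' i h4 (by omega)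
        have a2 := hX1' i h4 (by omega)
        have a3 := hYp i h4 (by omega)
        have a4 := hYp j (by omega) h5
        have k3 : X i * Y j < X i * Y i := by
          have : Y i * X j ≤ Y i * X i := mul_le_mul_of_nonneg_left h6 a3.le
          linarith
        have k4 : Y j < Y i := lt_of_mul_lt_mul_left k3 a1.le
        have k5 : 0 ≤ (X i - X j) * Y i := mul_nonneg (by linarith) a3.le
        have k6 : 0 < (Y i - Y j) * (1 - X i) := mul_pos (by linarith) (by linarith)
        linarith
  have hc : s < c := by omega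
  have hc' : c < e := by omega
  have hd : s < d := by omega
  have hd' : d < e := by omega
  have m1 : X x < X c := mono _ _ hx (by omega) hc'.le
  have m2 : X d < X y := mono _ _ hd.le (by omega) hy
  have m3 : X x < X d := mono _ _ hx (by omega) hd'.le
  have m4 : X c < X y := mono _ _ hc.le (by omega) hy
  have hP1 : Y x < Y c := by
    by_contra h
    push Not at h
    have k := conv x c y hx (by omega) (by omega) hy
    have k1 : 0 ≤ (Y x - Y c) * (X y - X c) := mul_nonneg (by linarith) (by linarith)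
    have k2 : (X c - X x) * (Y y - Y c) < 0 := by linarith
    have k3 : Y y < Y c := by
      by_contra h3
      push Not at h3
      have := mul_nonneg (sub_nonneg.2 m1.le) (sub_nonneg.2 h3)
      linarith
    have k4 : (X c - X y) ^ 2 < (X x - X y) ^ 2 := by
      have : 0 < (X c - X x) * ((X y - X x) + (X y - X c)) :=
        mul_pos (by linarith) (by linarith)
      linarith
    have k5 : (Y c - Y y) ^ 2 ≤ (Y x - Y y) ^ 2 := by
      have : 0 ≤ (Y x - Y c) * ((Y x - Y y) + (Y c - Y y)) :=
        mul_nonneg (by linarith) (by linarith)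
      linarith
    linarith
  have hP2 : Y y < Y d := by
    by_contra h
    push Not at h
    have k := conv x d y hx (by omega) (by omega) hy
    have k1 : 0 ≤ (X d - X x) * (Y y - Y d) := mul_nonneg (by linarith) (by linarith)
    have k2 : 0 < (Y d - Y x) * (X y - X d) := by linarith
    have k3 : Y x < Y d := by
      by_contra h3
      push Not at h3
      have := mul_nonneg (sub_nonneg.2 h3) (sub_nonneg.2 m2.le)
      linarith
    have k4 : (X x - X d) ^ 2 < (X x - X y) ^ 2 := by
      have : 0 < (X y - X d) * ((X y - X x) + (X d - X x)) :=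
        mul_pos (by linarith) (by linarith)
      linarith
    have k5 : (Y x - Y d) ^ 2 ≤ (Y x - Y y) ^ 2 := by
      have : 0 ≤ (Y y - Y d) * ((Y y - Y x) + (Y d - Y x)) :=
        mul_nonneg (by linarith) (by linarith)
      linarith
    linarith
  have hxx : 0 ≤ X x ∧ 0 ≤ Y x ∧ X x * Y c ≤ Y x * X c ∧
      (s < x → X x * Y c < Y x * X c) := by
    rcases Nat.eq_or_lt_of_le hx with h | h
    · rw [← h, hX0, hY0]
      refine ⟨le_rfl, le_rfl, by linarith, fun h2 => absurd h2 (lt_irrefl _)⟩
    · have k := conv s x c le_rfl h (by omega) hc'.le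
      rw [hX0, hY0] at k
      exact ⟨(hX0' x h (by omega)).le, (hYp x h (by omega)).le, by linarith, fun _ => by linarith⟩
  have hyy : X y ≤ 1 ∧ 0 ≤ Y y ∧ (1 - X y) * Y d ≤ Y y * (1 - X d) ∧
      (y < e → (1 - X y) * Y d < Y y * (1 - X d)) := by
    rcases Nat.eq_or_lt_of_le hy with h | h
    · rw [h, hX1, hY1]
      refine ⟨le_rfl, le_rfl, by linarith, fun h2 => absurd h2 (lt_irrefl _)⟩
    · have k := conv d y e hd.le (by omega) h le_rfl
      rw [hX1, hY1] at k
      exact ⟨(hX1' y (by omega) h).le, (hYp y (by omega) h).le, by linarith, fun _ => by linarith⟩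
  have hw : 0 ≤ (X x - X c) * (Y d - Y c) -
        (Y x - Y c) * (X d - X c) ∧
      (X d - X c) * (Y y - Y d) -
        (Y d - Y c) * (X y - X d) ≤ 0 := by
    rcases Nat.eq_or_lt_of_le (by omega : c ≤ d) with h | h
    · rw [← h]
      constructor <;> linarith
    · have k1 := conv x c d hx (by omega) h hd'.le
      have k2 := conv c d y hc.le h (by omega) hy
      constructor <;> linarith
  have hcb := hmax c e hc.le hc' le_rfl
  have hda := hmax s d le_rfl hd hd'.le
  rw [hX1, hY1] at hcb
  rw [hX0, hY0] at hda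
  refine key (X x) (Y x) (X c) (Y c) (X d) (Y d) (X y) (Y y)
    (hYp _ hc hc') (hYp _ hd hd') hxx.2.1 hyy.2.1 hxx.1 hyy.1 (hX0' _ hc hc') (hX1' _ hd hd')
    m1 m2 hP1 hP2 hxx.2.2.1 hyy.2.2.1 ?_ hw.1 hw.2 (by linarith) (by linarith) g1 g2
  rcases hne with h | h
  · exact Or.inl (hxx.2.2.2 h)
  · exact Or.inr (hyy.2.2.2 h)

lemma arc2 (P : ℕ → ℂ) (s e : ℕ)
    (conv : ∀ i j k, s ≤ i → i < j → j < k → k ≤ e → 0 < area (P i) (P j) (P k))
    (hpos : 0 < dist (P s) (P e))
    (hmax : ∀ i j, s ≤ i → i < j → j ≤ e → dist (P i) (P j) ≤ dist (P s) (P e))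
    (x c d y : ℕ) (hx : s ≤ x) (hy : y ≤ e) (hxc : x < c) (hcd : c ≤ d) (hdy : d < y)
    (hne : s < x ∨ y < e) :
    dist (P c) (P y) < dist (P x) (P y) ∨ dist (P x) (P d) < dist (P x) (P y) := by
  by_contra hcon
  rw [not_or, not_lt, not_lt] at hcon
  obtain ⟨h1, h2⟩ := hcon
  have sq : ∀ {z w u v : ℂ}, dist z w ≤ dist u v → dist z w ^ 2 ≤ dist u v ^ 2 :=
    fun h => pow_le_pow_left₀ dist_nonneg h 2
  obtain ⟨e1, he1⟩ : ∃ e1, e1 = (P e).re - (P s).re := ⟨_, rfl⟩
  obtain ⟨e2, he2⟩ : ∃ e2, e2 = (P e).im - (P s).im := ⟨_, rfl⟩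
  obtain ⟨L, hL⟩ : ∃ L, L = e1 ^ 2 + e2 ^ 2 := ⟨_, rfl⟩
  have hLd : dist (P s) (P e) ^ 2 = L := by
    rw [dsq, hL, he1, he2]
    ring
  have hLp : 0 < L := by
    rw [← hLd]
    positivity
  let X : ℕ → ℝ := fun i => (e1 * ((P i).re - (P s).re) + e2 * ((P i).im - (P s).im)) / L
  let Y : ℕ → ℝ := fun i => (e2 * ((P i).re - (P s).re) - e1 * ((P i).im - (P s).im)) / L
  have hd : ∀ i j, (X i - X j) ^ 2 + (Y i - Y j) ^ 2 = dist (P i) (P j) ^ 2 / L := by
    intro i j
    rw [dsq]
    simp only [X, Y]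
    have hL0 := hLp.ne'
    field_simp
    rw [hL]
    ring
  have hc : ∀ i j k, (X j - X i) * (Y k - Y i) - (Y j - Y i) * (X k - X i) =
      -(area (P i) (P j) (P k)) / L := by
    intro i j k
    unfold area
    simp only [X, Y]
    have hL0 := hLp.ne'
    field_simp
    rw [hL]
    ring
  refine norm_arc2 X Y s e ?_ ?_ ?_ ?_ ?_ ?_ x c d y hx hy hxc hcd hdy hne ?_ ?_
  · simp [X]
  · simp [Y]
  · simp only [X]
    rw [← he1, ← he2, div_eq_one_iff_eq hLp.ne', hL]
    ring
  · simp only [Y]
    rw [← he1, ← he2]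
    rw [div_eq_zero_iff]
    left
    ring
  · intro i j k hi hij hjk hk
    rw [hc]
    exact div_neg_of_neg_of_pos (by linarith [conv i j k hi hij hjk hk]) hLp
  · intro i j hi hij hj
    rw [hd, div_le_one hLp, ← hLd]
    exact sq (hmax i j hi hij hj)
  · rw [hd, hd]
    exact div_le_div_of_nonneg_right (sq h1) hLp.le
  · rw [hd, hd]
    exact div_le_div_of_nonneg_right (sq h2) hLp.le


/-- the quadrilateral inequality -/
lemma quad (x d c y : ℂ) (h1 : 0 < area x d c) (h2 : 0 < area x c y) (h3 : 0 < area x d y)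
    (h4 : 0 < area d c y) : dist x d + dist c y ≤ dist x c + dist d y := by
  obtain ⟨S, hS⟩ : ∃ S, S = area x d c + area x c y := ⟨_, rfl⟩
  have hSp : 0 < S := by linarith
  have hS2 : S = area x d y + area d c y := by
    rw [hS]
    unfold area
    ring
  obtain ⟨a, ha⟩ : ∃ a, a = area x d y / S := ⟨_, rfl⟩
  obtain ⟨b, hb⟩ : ∃ b, b = area x d c / S := ⟨_, rfl⟩
  have ha0 : 0 ≤ a := by rw [ha]; positivity
  have hb0 : 0 ≤ b := by rw [hb]; positivity
  have ha1 : a ≤ 1 := by rw [ha, div_le_one hSp]; linarith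
  have hb1 : b ≤ 1 := by rw [hb, div_le_one hSp]; linarith
  have ho : x + (a : ℂ) * (c - x) = d + (b : ℂ) * (y - d) := by
    have e1 : area x d y * (c.re - x.re) = S * (d.re - x.re) + area x d c * (y.re - d.re) := by
      rw [hS]
      unfold area
      ring
    have e2 : area x d y * (c.im - x.im) = S * (d.im - x.im) + area x d c * (y.im - d.im) := by
      rw [hS]
      unfold area
      ring
    apply Complex.ext
    · simp only [Complex.add_re, Complex.mul_re, Complex.ofReal_re, Complex.ofReal_im,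
        Complex.sub_re, Complex.sub_im]
      rw [ha, hb]
      field_simp
      linarith
    · simp only [Complex.add_im, Complex.mul_im, Complex.ofReal_re, Complex.ofReal_im,
        Complex.sub_re, Complex.sub_im]
      rw [ha, hb]
      field_simp
      linarith
  obtain ⟨o, hoe⟩ : ∃ o, o = x + (a : ℂ) * (c - x) := ⟨_, rfl⟩
  have d1 : dist x o = a * dist x c := by
    rw [hoe, dist_comm, Complex.dist_eq, add_sub_cancel_left, norm_mul, Complex.norm_real,
      Real.norm_of_nonneg ha0, dist_comm x c, Complex.dist_eq]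
  have d2 : dist o c = (1 - a) * dist x c := by
    have : o - c = ((1 - a : ℝ) : ℂ) * (x - c) := by
      rw [hoe]
      push_cast
      ring
    rw [Complex.dist_eq, this, norm_mul, Complex.norm_real, Real.norm_of_nonneg (by linarith),
      Complex.dist_eq]
  have d3 : dist d o = b * dist d y := by
    rw [hoe, ho, dist_comm, Complex.dist_eq, add_sub_cancel_left, norm_mul, Complex.norm_real,
      Real.norm_of_nonneg hb0, dist_comm d y, Complex.dist_eq]
  have d4 : dist o y = (1 - b) * dist d y := by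
    have : o - y = ((1 - b : ℝ) : ℂ) * (d - y) := by
      rw [hoe, ho]
      push_cast
      ring
    rw [Complex.dist_eq, this, norm_mul, Complex.norm_real, Real.norm_of_nonneg (by linarith),
      Complex.dist_eq]
  have t1 := dist_triangle x o d
  have t2 := dist_triangle c o y
  rw [dist_comm o d] at t1
  rw [dist_comm c o] at t2
  linarith

end Pool.Agent.W239.AL
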