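import Mathlib

/-!
# Large distance graphs of convex polygons: the greedy partition (helper239)
-/

namespace Pool.Agent.W239.AL

lemma greedy (w : ℕ → ℕ → ℝ) (t : ℝ) (L : ℕ) : ∀ s : ℕ, ∃ (q : ℕ) (f : ℕ → ℕ) (col : ℕ → ℕ),
    f 0 = s ∧ f q = s + L ∧ (∀ i, i < q → f i < f (i + 1)) ∧
    (∀ i, i + 1 < q → ∃ u v, f i ≤ u ∧ u < f (i + 1) ∧ f (i + 1) ≤ v ∧ v < f (i + 2) ∧
      t ≤ w u v) ∧
    (∀ v, s ≤ v → v < s + L → col v < q) ∧
    (∀ u v, s ≤ u → u < v → v < s + L → col u = col v → w u v < t) := by
  induction L using Nat.strong_induction_on with
  | _ L ih =>
    intro s
    classical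
    rcases Nat.eq_zero_or_pos L with h0 | h0
    · subst h0
      exact ⟨0, fun _ => s, fun _ => 0, rfl, rfl, fun i hi => absurd hi (Nat.not_lt_zero _),
        fun i hi => absurd hi (Nat.not_lt_zero _), fun v h1 h2 => by omega,
        fun u v h1 h2 h3 => by omega⟩
    · let Q : ℕ → Prop := fun j => ∀ u v, s ≤ u → u < v → v < s + j → w u v < t
      have hQ1 : Q 1 := fun u v h1 h2 h3 => by omega
      have hj1 : 1 ≤ Nat.findGreatest Q L := Nat.le_findGreatest h0 hQ1
      have hjL : Nat.findGreatest Q L ≤ L := Nat.findGreatest_le L
      have hQj : Q (Nat.findGreatest Q L) := Nat.findGreatest_spec h0 hQ1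
      have hnot : Nat.findGreatest Q L < L → ¬ Q (Nat.findGreatest Q L + 1) := fun h =>
        Nat.findGreatest_is_greatest (Nat.lt_succ_self _) h
      generalize Nat.findGreatest Q L = j at *
      obtain ⟨q, f, col, f0, fq, fm, fs, cl, cp⟩ := ih (L - j) (by omega) (s + j)
      have e1 : s + j + (L - j) = s + L := by omega
      rw [e1] at fq cl cp
      refine ⟨q + 1, fun i => if i = 0 then s else f (i - 1),
        fun v => if v < s + j then 0 else col v + 1, by simp, by simp [fq], ?_, ?_, ?_, ?_⟩
      · intro i hi
        rcases Nat.eq_zero_or_pos i with h | h
        · subst h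
          simp [f0]
          omega
        · have := fm (i - 1) (by omega)
          rw [Nat.sub_add_cancel h] at this
          simp [h.ne', this]
      · intro i hi
        rcases Nat.eq_zero_or_pos i with h | h
        · subst h
          have hq : 0 < q := by omega
          have hf := fm 0 hq
          rw [Nat.zero_add, f0] at hf
          have hjL2 : j < L := by
            by_contra hn
            have e2 : j = L := by omega
            have e3 : ∀ i, i ≤ q → s + j ≤ f i := by
              intro i
              induction i with
              | zero => intro _; omega
              | succ i ihi =>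
                intro hi
                have := fm i (by omega)
                have := ihi (by omega)
                omega
            have e5 : ∀ i, 1 ≤ i → i ≤ q → s + j < f i := by
              intro i h1 h2
              have := fm (i - 1) (by omega)
              rw [Nat.sub_add_cancel h1] at this
              have := e3 (i - 1) (by omega)
              omega
            have := e5 q hq le_rfl
            omega
          have hn := hnot hjL2
          simp only [Q] at hn
          push Not at hn
          obtain ⟨u, v, h1, h2, h3, h4⟩ := hn
          have hv : v = s + j := by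
            by_contra hne
            have := hQj u v h1 h2 (by omega)
            linarith
          refine ⟨u, v, ?_, ?_, ?_, ?_, h4⟩
          · simpa using h1
          · simp [f0]; omega
          · simp [f0]; omega
          · simp; omega
        · obtain ⟨u, v, h1, h2, h3, h4, h5⟩ := fs (i - 1) (by omega)
          have e2 : i - 1 + 1 = i := by omega
          have e3 : i - 1 + 2 = i + 1 := by omega
          rw [e2] at h2 h3
          rw [e3] at h4
          refine ⟨u, v, ?_, ?_, ?_, ?_, h5⟩
          · simpa [h.ne'] using h1
          · simpa using h2
          · simpa using h3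
          · simpa using h4
      · intro v h1 h2
        by_cases h : v < s + j
        · simp [h]
        · have := cl v (by omega) h2
          simp [h, this]
      · intro u v h1 h2 h3 h4
        by_cases hv : v < s + j
        · exact hQj u v h1 h2 hv
        · by_cases hu : u < s + j
          · simp [hu, hv] at h4
          · simp [hu, hv] at h4
            exact cp u v (by omega) h2 h3 h4

end Pool.Agent.W239.AL
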