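import Pool.Agent.W239.AL.Arc2
import Pool.Agent.W239.AL.Greedy

/-!
# Large distance graphs of convex polygons: chains of classes (helper239)
-/

namespace Pool.Agent.W239.AL

lemma classChain (P : ℕ → ℂ) (s e : ℕ) (T : Finset ℝ) (t : ℝ)
    (conv : ∀ i j k, s ≤ i → i < j → j < k → k ≤ e → 0 < area (P i) (P j) (P k))
    (hpos : 0 < dist (P s) (P e))
    (hmax : ∀ i j, s ≤ i → i < j → j ≤ e → dist (P i) (P j) ≤ dist (P s) (P e))
    (hT : ∀ x y, s ≤ x → x < y → y ≤ e → t ≤ dist (P x) (P y) → dist (P x) (P y) ∈ T)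
    (q : ℕ) (f : ℕ → ℕ) (hq : 2 ≤ q) (f0 : f 0 = s) (fq : f q = e + 1)
    (fm : ∀ i, i < q → f i < f (i + 1))
    (fs : ∀ i, i + 1 < q → ∃ u v, f i ≤ u ∧ u < f (i + 1) ∧ f (i + 1) ≤ v ∧ v < f (i + 2) ∧
      t ≤ dist (P u) (P v)) :
    q ≤ T.card + 1 ∨ (q ≤ T.card + 2 ∧ ∃ c y, s < c ∧ c < y ∧ y ≤ e ∧
      dist (P c) (P y) = dist (P s) (P e)) := by
  have fle : ∀ i j, i ≤ j → j ≤ q → f i ≤ f j := by
    intro i j h1
    induction j, h1 using Nat.le_induction with
    | base => intro _; exact le_rfl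
    | succ j hj ih =>
      intro h2
      exact (ih (by omega)).trans (fm j (by omega)).le
  have hg : ∀ i j, ∃ z : ℕ × ℕ, i < q → j < q → (f i ≤ z.1 ∧ z.1 < f (i + 1)) ∧
      (f j ≤ z.2 ∧ z.2 < f (j + 1)) ∧ ∀ x y, f i ≤ x → x < f (i + 1) → f j ≤ y → y < f (j + 1) →
        dist (P x) (P y) ≤ dist (P z.1) (P z.2) := by
    intro i j
    by_cases h : i < q ∧ j < q
    · obtain ⟨z, hz, hz2⟩ := Finset.exists_max_image
        (Finset.Ico (f i) (f (i + 1)) ×ˢ Finset.Ico (f j) (f (j + 1)))
        (fun z => dist (P z.1) (P z.2))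
        ⟨(f i, f j), Finset.mem_product.2 ⟨Finset.mem_Ico.2 ⟨le_rfl, fm i h.1⟩,
          Finset.mem_Ico.2 ⟨le_rfl, fm j h.2⟩⟩⟩
      rw [Finset.mem_product, Finset.mem_Ico, Finset.mem_Ico] at hz
      exact ⟨z, fun _ _ => ⟨hz.1, hz.2, fun x y h1 h2 h3 h4 => hz2 (x, y)
        (Finset.mem_product.2 ⟨Finset.mem_Ico.2 ⟨h1, h2⟩, Finset.mem_Ico.2 ⟨h3, h4⟩⟩)⟩⟩
    · exact ⟨(0, 0), fun h1 h2 => absurd ⟨h1, h2⟩ h⟩
  choose g hg using hg
  let w : ℕ → ℕ → ℝ := fun i j => dist (P (g i j).1) (P (g i j).2)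
  have rng : ∀ i j, i < j → j < q → s ≤ (g i j).1 ∧ (g i j).1 < (g i j).2 ∧ (g i j).2 ≤ e := by
    intro i j h1 h2
    obtain ⟨a1, a2, _⟩ := hg i j (by omega) h2
    have b1 := fle 0 i (by omega) (by omega)
    have b2 := fle (i + 1) j (by omega) (by omega)
    have b3 := fle (j + 1) q (by omega) le_rfl
    refine ⟨by omega, by omega, by omega⟩
  have ns : ∀ i j, i + 2 ≤ j → j < q → (0 < i ∨ j < q - 1) →
      w (i + 1) j < w i j ∨ w i (j - 1) < w i j := by
    intro i j h1 h2 h3
    by_contra hcon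
    rw [not_or, not_lt, not_lt] at hcon
    obtain ⟨k1, k2⟩ := hcon
    obtain ⟨a1, a2, a3⟩ := hg (i + 1) j (by omega) h2
    obtain ⟨b1, b2, b3⟩ := hg i (j - 1) (by omega) (by omega)
    obtain ⟨-, -, c3⟩ := hg i j (by omega) h2
    have ej : j - 1 + 1 = j := by omega
    rw [ej] at b2 b3
    have d1 := fle (i + 1) (j - 1) (by omega) (by omega)
    have d0 := fle 0 i (by omega) (by omega)
    have d2 := fle (j + 1) q (by omega) le_rfl
    have d3 := fle (i + 1 + 1) j (by omega) (by omega)
    have hxy := c3 (g i (j - 1)).1 (g (i + 1) j).2 b1.1 b1.2 a2.1 a2.2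
    have hcy : dist (P (g i (j - 1)).1) (P (g (i + 1) j).2) ≤
        dist (P (g (i + 1) j).1) (P (g (i + 1) j).2) := hxy.trans k1
    have hxd : dist (P (g i (j - 1)).1) (P (g (i + 1) j).2) ≤
        dist (P (g i (j - 1)).1) (P (g i (j - 1)).2) := hxy.trans k2
    have hne : s < (g i (j - 1)).1 ∨ (g (i + 1) j).2 < e := by
      rcases h3 with h3 | h3
      · left
        have m1 := fm 0 (by omega)
        have m2 := fle (0 + 1) i (by omega) (by omega)
        omega
      · right
        have m1 := fle (j + 1) (q - 1) (by omega) (by omega)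
        have m2 := fm (q - 1) (by omega)
        have m3 : q - 1 + 1 = q := by omega
        rw [m3] at m2
        omega
    generalize (g i (j - 1)).1 = x at *
    generalize (g i (j - 1)).2 = d at *
    generalize (g (i + 1) j).1 = c at *
    generalize (g (i + 1) j).2 = y at *
    by_cases hcd : c ≤ d
    · rcases arc2 P s e conv hpos hmax x c d y (by omega) (by omega) (by omega) hcd (by omega)
        hne with h | h
      · linarith
      · linarith
    · have hij : j - 1 = i + 1 := by
        by_contra hne2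
        have := fle (i + 1 + 1) (j - 1) (by omega) (by omega)
        omega
      have h5 : dist (P x) (P c) ≤ dist (P x) (P d) :=
        b3 x c b1.1 b1.2 (by rw [hij]; exact a1.1) (by omega)
      have h6 : dist (P d) (P y) ≤ dist (P c) (P y) :=
        a3 d y (by rw [hij] at b2; exact b2.1) (by omega) a2.1 a2.2
      have h7 := quad (P x) (P d) (P c) (P y)
        (conv x d c (by omega) (by omega) (by omega) (by omega))
        (conv x c y (by omega) (by omega) (by omega) (by omega))
        (conv x d y (by omega) (by omega) (by omega) (by omega))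
        (conv d c y (by omega) (by omega) (by omega) (by omega))
      rcases arc2 P s e conv hpos hmax x d c y (by omega) (by omega) (by omega) (by omega)
        (by omega) hne with h | h
      · linarith
      · linarith
  have sd : ∀ i, i + 1 < q → t ≤ w i (i + 1) := by
    intro i hi
    obtain ⟨u, v, h1, h2, h3, h4, h5⟩ := fs i hi
    exact h5.trans ((hg i (i + 1) (by omega) hi).2.2 u v h1 h2 h3 h4)
  have mem : ∀ x y, x < y → y < q → t ≤ w x y → w x y ∈ T := by
    intro x y h1 h2 h3
    obtain ⟨r1, r2, r3⟩ := rng x y h1 h2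
    exact hT _ _ r1 r2 r3 h3
  by_cases hq3 : 3 ≤ q
  swap
  · left
    have := Finset.card_pos.2 ⟨w 0 1, mem 0 1 (by omega) (by omega) (sd 0 (by omega))⟩
    omega
  by_cases hst : w 1 (q - 1) < w 0 (q - 1) ∨ w 0 (q - 1 - 1) < w 0 (q - 1)
  · left
    have := desc w T t (q - 2) 0
      (fun x y _ hy hxy => by
        by_cases h : 0 < x ∨ y < q - 1
        · exact ns x y hxy (by omega) h
        · have hx0 : x = 0 := by omega
          have hy0 : y = q - 1 := by omega
          subst hx0 hy0
          exact hst)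
      (fun i _ hi2 => sd i (by omega)) (fun x y _ hxy hy => mem x y hxy (by omega))
    have h2 := this.2.trans (Finset.card_filter_le _ _)
    omega
  · right
    rw [not_or, not_lt, not_lt] at hst
    have hD : dist (P s) (P e) ≤ w 0 (q - 1) := by
      obtain ⟨-, -, c3⟩ := hg 0 (q - 1) (by omega) (by omega)
      have m1 := fm 0 (by omega)
      have m2 := fm (q - 1) (by omega)
      have m3 : q - 1 + 1 = q := by omega
      rw [m3] at m2 c3
      exact c3 s e (by omega) (by omega) (by omega) (by omega)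
    · obtain ⟨r1, r2, r3⟩ := rng 1 (q - 1) (by omega) (by omega)
      have hc : s < (g 1 (q - 1)).1 := by
        obtain ⟨a1, _, _⟩ := hg 1 (q - 1) (by omega) (by omega)
        have m1 := fm 0 (by omega)
        rw [Nat.zero_add] at m1
        omega
      refine ⟨?_, _, _, hc, r2, r3, le_antisymm (hmax _ _ r1 r2 r3) (hD.trans hst.1)⟩
      have := desc w T t (q - 3) 1
        (fun x y hx hy hxy => ns x y hxy (by omega) (Or.inl (by omega)))
        (fun i _ hi2 => sd i (by omega)) (fun x y _ hxy hy => mem x y hxy (by omega))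
      have h2 := this.2.trans (Finset.card_filter_le _ _)
      omega

end Pool.Agent.W239.AL
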