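import Mathlib

/-!
# Altman's theorem above the shortest side: the geometric lemma (helper239)
-/

namespace Pool.Agent.W239.AL

lemma core (E1 E2 K g1 g2 l m : ℝ) (hE1 : 0 < E1) (hE2 : 0 < E2) (hg1 : 0 ≤ g1) (hg2 : 0 ≤ g2)
    (h1 : E1 * (1 + 2 * g1) ≤ 2 * K * (1 + g2)) (h1' : E2 * (1 + 2 * g2) ≤ 2 * K * (1 + g1))
    (h2 : 2 * m * K ≤ l * E1) (h2' : 2 * l * K ≤ m * E2)
    (hs : (2 * m * K < l * E1 ∧ 0 < l) ∨ (2 * l * K < m * E2 ∧ 0 < m)) : False := by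
  have hK : 0 < K := by
    by_contra hK
    push Not at hK
    have e1 : 0 < E1 * (1 + 2 * g1) := by positivity
    have e2 : 2 * K * (1 + g2) ≤ 0 := by
      have : 0 ≤ (-K) * (1 + g2) := mul_nonneg (by linarith) (by linarith)
      linarith
    linarith
  have h3 : E1 * E2 ≤ 4 * K ^ 2 := by
    have e1 : (E1 * (1 + 2 * g1)) * (E2 * (1 + 2 * g2)) ≤ (2 * K * (1 + g2)) * (2 * K * (1 + g1)) :=
      mul_le_mul h1 h1' (by positivity) (by positivity)
    have e2 : (1 + g1) * (1 + g2) ≤ (1 + 2 * g1) * (1 + 2 * g2) :=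
      mul_le_mul (by linarith) (by linarith) (by linarith) (by linarith)
    have e3 : 0 < (1 + g1) * (1 + g2) := by positivity
    have e4 : E1 * E2 * ((1 + g1) * (1 + g2)) ≤ 4 * K ^ 2 * ((1 + g1) * (1 + g2)) := by
      have e5 : E1 * E2 * ((1 + g1) * (1 + g2)) ≤ E1 * E2 * ((1 + 2 * g1) * (1 + 2 * g2)) :=
        mul_le_mul_of_nonneg_left e2 (by positivity)
      linarith
    exact le_of_mul_le_mul_right e4 e3
  rcases hs with ⟨h4, hl⟩ | ⟨h4, hm⟩
  · have hm : 0 < m := by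
      by_contra hm
      push Not at hm
      have e1 : m * E2 ≤ 0 := mul_nonpos_of_nonpos_of_nonneg hm hE2.le
      have e2 : 0 < 2 * l * K := by positivity
      linarith
    have e1 : (2 * m * K) * (2 * l * K) < (l * E1) * (m * E2) :=
      mul_lt_mul h4 h2' (by positivity) (by positivity)
    have e2 : 0 < l * m := by positivity
    have e3 : 4 * K ^ 2 * (l * m) < E1 * E2 * (l * m) := by linarith
    have e4 := lt_of_mul_lt_mul_right e3 e2.le
    linarith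
  · have hl : 0 < l := by
      by_contra hl
      push Not at hl
      have e1 : l * E1 ≤ 0 := mul_nonpos_of_nonpos_of_nonneg hl hE1.le
      have e2 : 0 < 2 * m * K := by positivity
      linarith
    have e1 : (2 * l * K) * (2 * m * K) < (m * E2) * (l * E1) :=
      mul_lt_mul h4 h2 (by positivity) (by positivity)
    have e2 : 0 < l * m := by positivity
    have e3 : 4 * K ^ 2 * (l * m) < E1 * E2 * (l * m) := by linarith
    have e4 := lt_of_mul_lt_mul_right e3 e2.le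
    linarith

lemma ppa (l E W Q S : ℝ) (hl : 0 < l) (r : S = l ^ 2 * E + 2 * l * (-W) + Q) (h : Q ≤ S) :
    2 * W ≤ l * E := by
  have e : 0 ≤ l * (l * E - 2 * W) := by
    have : l * (l * E - 2 * W) = S - Q := by
      rw [r]
      ring
    rw [this]
    linarith
  have := nonneg_of_mul_nonneg_right e hl
  linarith

lemma ppb (l E W Q S : ℝ) (hl : 0 < l) (r : S = l ^ 2 * E + 2 * l * (-W) + Q) (h : Q < S) :
    2 * W < l * E := by
  have e : 0 < l * (l * E - 2 * W) := by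
    have : l * (l * E - 2 * W) = S - Q := by
      rw [r]
      ring
    rw [this]
    linarith
  have := (pos_iff_pos_of_mul_pos e).1 hl
  linarith

lemma key (x1 x2 c1 c2 d1 d2 y1 y2 : ℝ) (hc2 : 0 < c2) (hd2 : 0 < d2) (hx2 : 0 ≤ x2)
    (hy2 : 0 ≤ y2) (hx1 : 0 ≤ x1) (hy1 : y1 ≤ 1) (hc1 : 0 < c1) (hd1 : d1 < 1)
    (hxc : x1 < c1) (hdy : d1 < y1) (hP1 : x2 < c2) (hP2 : y2 < d2)
    (ha : x1 * c2 ≤ x2 * c1) (hb : (1 - y1) * d2 ≤ y2 * (1 - d1))
    (hs : x1 * c2 < x2 * c1 ∨ (1 - y1) * d2 < y2 * (1 - d1))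
    (hw1 : 0 ≤ (x1 - c1) * (d2 - c2) - (x2 - c2) * (d1 - c1))
    (hw2 : (d1 - c1) * (y2 - d2) - (d2 - c2) * (y1 - d1) ≤ 0)
    (hcb : (c1 - 1) ^ 2 + c2 ^ 2 ≤ 1) (hda : d1 ^ 2 + d2 ^ 2 ≤ 1)
    (h1 : (x1 - y1) ^ 2 + (x2 - y2) ^ 2 ≤ (c1 - y1) ^ 2 + (c2 - y2) ^ 2)
    (h1' : (x1 - y1) ^ 2 + (x2 - y2) ^ 2 ≤ (x1 - d1) ^ 2 + (x2 - d2) ^ 2) : False := by
  obtain ⟨P1, hP1e⟩ : ∃ P1, P1 = c2 - x2 := ⟨_, rfl⟩
  obtain ⟨P2, hP2e⟩ : ∃ P2, P2 = d2 - y2 := ⟨_, rfl⟩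
  have hP1p : 0 < P1 := by linarith
  have hP2p : 0 < P2 := by linarith
  obtain ⟨Δ, hΔ⟩ : ∃ Δ, Δ = (c1 - x1) * P2 + P1 * (y1 - d1) := ⟨_, rfl⟩
  have hΔp : 0 < Δ := by
    have e1 : 0 < (c1 - x1) * P2 := mul_pos (by linarith) hP2p
    have e2 : 0 < P1 * (y1 - d1) := mul_pos hP1p (by linarith)
    linarith
  obtain ⟨g1, hg1⟩ : ∃ g1, g1 = -((d1 - c1) * (y2 - d2) - (d2 - c2) * (y1 - d1)) / Δ := ⟨_, rfl⟩
  obtain ⟨g2, hg2⟩ : ∃ g2, g2 = ((x1 - c1) * (d2 - c2) - (x2 - c2) * (d1 - c1)) / Δ := ⟨_, rfl⟩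
  have hg1p : 0 ≤ g1 := by
    rw [hg1]
    exact div_nonneg (by linarith) hΔp.le
  have hg2p : 0 ≤ g2 := by
    rw [hg2]
    exact div_nonneg hw1 hΔp.le
  have hwa : d1 - c1 = -g1 * (x1 - c1) + g2 * (y1 - d1) := by
    rw [hg1, hg2]
    field_simp
    rw [hΔ, hP1e, hP2e]
    ring
  have hwb : d2 - c2 = -g1 * (x2 - c2) + g2 * (y2 - d2) := by
    rw [hg1, hg2]
    field_simp
    rw [hΔ, hP1e, hP2e]
    ring
  obtain ⟨E1, hE1⟩ : ∃ E1, E1 = (x1 - c1) ^ 2 + (x2 - c2) ^ 2 := ⟨_, rfl⟩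
  obtain ⟨E2, hE2⟩ : ∃ E2, E2 = (y1 - d1) ^ 2 + (y2 - d2) ^ 2 := ⟨_, rfl⟩
  obtain ⟨K, hK⟩ : ∃ K, K = (x1 - c1) * (y1 - d1) + (x2 - c2) * (y2 - d2) := ⟨_, rfl⟩
  have hE1p : 0 < E1 := by
    rw [hE1]
    have : 0 < (x2 - c2) ^ 2 := by
      have : x2 - c2 ≠ 0 := by linarith
      positivity
    positivity
  have hE2p : 0 < E2 := by
    rw [hE2]
    have : 0 < (y2 - d2) ^ 2 := by
      have : y2 - d2 ≠ 0 := by linarith
      positivity
    positivity
  have hW1 : (d1 - c1) * (x1 - c1) + (d2 - c2) * (x2 - c2) = -g1 * E1 + g2 * K := by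
    rw [hwa, hwb, hE1, hK]
    ring
  have hW2 : (d1 - c1) * (y1 - d1) + (d2 - c2) * (y2 - d2) = -g1 * K + g2 * E2 := by
    rw [hwa, hwb, hE2, hK]
    ring
  -- (1), (1')
  have k1 : E1 ≤ 2 * ((d1 - c1) * (x1 - c1) + (d2 - c2) * (x2 - c2)) + 2 * K := by
    rw [hE1, hK]
    linarith
  have k1' : E2 ≤ 2 * K - 2 * ((d1 - c1) * (y1 - d1) + (d2 - c2) * (y2 - d2)) := by
    rw [hE2, hK]
    linarith
  -- the points a*, b*
  obtain ⟨l, hl⟩ : ∃ l, l = c2 / P1 := ⟨_, rfl⟩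
  obtain ⟨m, hm⟩ : ∃ m, m = d2 / P2 := ⟨_, rfl⟩
  obtain ⟨s, hse⟩ : ∃ s, s = -(c1 + l * (x1 - c1)) := ⟨_, rfl⟩
  obtain ⟨t, hte⟩ : ∃ t, t = d1 + m * (y1 - d1) - 1 := ⟨_, rfl⟩
  have hlP : l * P1 = c2 := by rw [hl]; field_simp
  have hmP : m * P2 = d2 := by rw [hm]; field_simp
  have hlp : 0 < l := by rw [hl]; positivity
  have hmp : 0 < m := by rw [hm]; positivity
  have hsP : s * P1 = x2 * c1 - x1 * c2 := by
    rw [hse]
    have : -(c1 + l * (x1 - c1)) * P1 = -(c1 * P1 + (l * P1) * (x1 - c1)) := by ring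
    rw [this, hlP, hP1e]
    ring
  have htP : t * P2 = y2 * (1 - d1) - (1 - y1) * d2 := by
    rw [hte]
    have : (d1 + m * (y1 - d1) - 1) * P2 = d1 * P2 + (m * P2) * (y1 - d1) - P2 := by ring
    rw [this, hmP, hP2e]
    ring
  have hs0 : 0 ≤ s := by
    by_contra hn
    push Not at hn
    have := mul_neg_of_neg_of_pos hn hP1p
    linarith
  have ht0 : 0 ≤ t := by
    by_contra hn
    push Not at hn
    have := mul_neg_of_neg_of_pos hn hP2p
    linarith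
  -- |c - b*|^2 <= (1+t)^2
  have q1 : (c1 - (1 + t)) ^ 2 + c2 ^ 2 ≤ (1 + t) ^ 2 := by
    have : 0 ≤ t * c1 := mul_nonneg ht0 hc1.le
    linarith
  have q2 : (d1 + s) ^ 2 + d2 ^ 2 ≤ (1 + s) ^ 2 := by
    have : 0 ≤ s * (1 - d1) := mul_nonneg hs0 (by linarith)
    linarith
  -- identities
  have r1 : (1 + s + t) ^ 2 = l ^ 2 * E1 + 2 * l * ((x1 - c1) * (c1 - (1 + t)) + (x2 - c2) * c2) +
      ((c1 - (1 + t)) ^ 2 + c2 ^ 2) := by
    have e1 : 1 + s + t = -(c1 + l * (x1 - c1) - (1 + t)) := by rw [hse]; ring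
    have e2 : c2 + l * (x2 - c2) = 0 := by
      have : l * (x2 - c2) = -(l * P1) := by rw [hP1e]; ring
      rw [this, hlP]
      ring
    have e3 : (1 + s + t) ^ 2 = (c1 + l * (x1 - c1) - (1 + t)) ^ 2 + (c2 + l * (x2 - c2)) ^ 2 := by
      rw [e1, e2]
      ring
    rw [e3, hE1]
    ring
  have r2 : (1 + s + t) ^ 2 = m ^ 2 * E2 + 2 * m * ((y1 - d1) * (d1 + s) + (y2 - d2) * d2) +
      ((d1 + s) ^ 2 + d2 ^ 2) := by
    have e1 : 1 + s + t = d1 + m * (y1 - d1) + s := by rw [hte]; ring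
    have e2 : d2 + m * (y2 - d2) = 0 := by
      have : m * (y2 - d2) = -(m * P2) := by rw [hP2e]; ring
      rw [this, hmP]
      ring
    have e3 : (1 + s + t) ^ 2 = (d1 + m * (y1 - d1) + s) ^ 2 + (d2 + m * (y2 - d2)) ^ 2 := by
      rw [e1, e2]
      ring
    rw [e3, hE2]
    ring
  -- b* - c = w + m u2, a* - d = -w + l u1
  have r3 : (x1 - c1) * (c1 - (1 + t)) + (x2 - c2) * c2 =
      -((d1 - c1) * (x1 - c1) + (d2 - c2) * (x2 - c2) + m * K) := by
    have e1 : c1 - (1 + t) = -((d1 - c1) + m * (y1 - d1)) := by rw [hte]; ring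
    have e2 : c2 = -((d2 - c2) + m * (y2 - d2)) := by
      have : m * (y2 - d2) = -(m * P2) := by rw [hP2e]; ring
      rw [this, hmP]
      ring
    rw [e1, hK]
    calc (x1 - c1) * -((d1 - c1) + m * (y1 - d1)) + (x2 - c2) * c2 =
          (x1 - c1) * -((d1 - c1) + m * (y1 - d1)) +
            (x2 - c2) * (-((d2 - c2) + m * (y2 - d2))) := by rw [← e2]
      _ = _ := by ring
  have r4 : (y1 - d1) * (d1 + s) + (y2 - d2) * d2 =
      (d1 - c1) * (y1 - d1) + (d2 - c2) * (y2 - d2) - l * K := by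
    have e1 : d1 + s = (d1 - c1) - l * (x1 - c1) := by rw [hse]; ring
    have e2 : d2 = (d2 - c2) - l * (x2 - c2) := by
      have : l * (x2 - c2) = -(l * P1) := by rw [hP1e]; ring
      rw [this, hlP]
      ring
    rw [e1, hK]
    calc (y1 - d1) * ((d1 - c1) - l * (x1 - c1)) + (y2 - d2) * d2 =
          (y1 - d1) * ((d1 - c1) - l * (x1 - c1)) +
            (y2 - d2) * ((d2 - c2) - l * (x2 - c2)) := by rw [← e2]
      _ = _ := by ring
  have p1 : 2 * (((d1 - c1) * (x1 - c1) + (d2 - c2) * (x2 - c2)) + m * K) ≤ l * E1 := by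
    have e1 : (1 + t) ^ 2 ≤ (1 + s + t) ^ 2 := pow_le_pow_left₀ (by linarith) (by linarith) 2
    rw [r3] at r1
    exact ppa l E1 _ _ _ hlp r1 (q1.trans e1)
  have p1s : 0 < s →
      2 * (((d1 - c1) * (x1 - c1) + (d2 - c2) * (x2 - c2)) + m * K) < l * E1 := by
    intro hs1
    have e1 : (1 + t) ^ 2 < (1 + s + t) ^ 2 :=
      pow_lt_pow_left₀ (by linarith) (by linarith) two_ne_zero
    rw [r3] at r1
    exact ppb l E1 _ _ _ hlp r1 (q1.trans_lt e1)
  have p2 : 2 * (-((d1 - c1) * (y1 - d1) + (d2 - c2) * (y2 - d2) - l * K)) ≤ m * E2 := by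
    have e1 : (1 + s) ^ 2 ≤ (1 + s + t) ^ 2 := pow_le_pow_left₀ (by linarith) (by linarith) 2
    rw [r4, ← neg_neg ((d1 - c1) * (y1 - d1) + (d2 - c2) * (y2 - d2) - l * K)] at r2
    exact ppa m E2 _ _ _ hmp r2 (q2.trans e1)
  have p2s : 0 < t →
      2 * (-((d1 - c1) * (y1 - d1) + (d2 - c2) * (y2 - d2) - l * K)) < m * E2 := by
    intro ht1
    have e1 : (1 + s) ^ 2 < (1 + s + t) ^ 2 :=
      pow_lt_pow_left₀ (by linarith) (by linarith) two_ne_zero
    rw [r4, ← neg_neg ((d1 - c1) * (y1 - d1) + (d2 - c2) * (y2 - d2) - l * K)] at r2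
    exact ppb m E2 _ _ _ hmp r2 (q2.trans_lt e1)
  clear r1 r2 r3 r4 q1 q2 h1 h1' hcb hda hwa hwb hE1 hE2 hK hw1 hw2
  refine core E1 E2 K g1 g2 (l - 1) (m - 1) hE1p hE2p hg1p hg2p ?_ ?_ ?_ ?_ ?_
  · rw [hW1] at k1
    linarith
  · rw [hW2] at k1'
    linarith
  · linarith
  · linarith
  · rcases hs with hs | hs
    · left
      have hs1 : 0 < s := by
        by_contra hn
        have : s = 0 := by linarith
        rw [this] at hsP
        linarith
      have := p1s hs1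
      refine ⟨by linarith, ?_⟩
      have hx2p : 0 < x2 := by
        by_contra hn
        have : x2 = 0 := by linarith
        rw [this] at hs
        have : 0 ≤ x1 * c2 := mul_nonneg hx1 hc2.le
        linarith
      have : 1 < l := by
        rw [hl, lt_div_iff₀ hP1p]
        linarith
      linarith
    · right
      have ht1 : 0 < t := by
        by_contra hn
        have : t = 0 := by linarith
        rw [this] at htP
        linarith
      have := p2s ht1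
      refine ⟨by linarith, ?_⟩
      have hy2p : 0 < y2 := by
        by_contra hn
        have : y2 = 0 := by linarith
        rw [this] at hs
        have : 0 ≤ (1 - y1) * d2 := mul_nonneg (by linarith) hd2.le
        linarith
      have : 1 < m := by
        rw [hm, lt_div_iff₀ hP2p]
        linarith
      linarith

end Pool.Agent.W239.AL
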