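import Pool.Agent.W239.AL.Chain

/-!
# Large distance graphs of convex polygons are (2k+3)-colourable
-/

namespace Pool.Agent.W239.AL.TwoKPlusThree

open Pool.Agent.W239.AL

lemma area_cyc (z w u : ℂ) : area z w u = area w u z := by
  unfold area
  ring

/-- `p 0, ..., p (n-1)` are the vertices of a strictly convex polygon in counterclockwise order
(every triple in this order is positively oriented; `area` is twice the signed area of the
triangle).  For every real `t`, if `k` is the number of distinct distances of vertices that are at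
least `t`, then the graph joining the vertices at distance at least `t` can be coloured with
`2 k + 3` colours. -/
theorem result (n : ℕ) (hn : 3 ≤ n) (p : Fin n → ℂ)
    (hconv : ∀ i j k : Fin n, i < j → j < k → 0 < area (p i) (p j) (p k)) (t : ℝ) :
    (SimpleGraph.fromRel (fun a b : Fin n => t ≤ dist (p a) (p b))).Colorable
      (2 * ((Finset.univ.filter fun q : Fin n × Fin n =>
        q.1 ≠ q.2 ∧ t ≤ dist (p q.1) (p q.2)).image
          fun q : Fin n × Fin n => dist (p q.1) (p q.2)).card + 3) := by
  have hn0 : 0 < n := by omega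
  obtain ⟨T, hTdef⟩ : ∃ T, T = (Finset.univ.filter fun q : Fin n × Fin n =>
        q.1 ≠ q.2 ∧ t ≤ dist (p q.1) (p q.2)).image
          fun q : Fin n × Fin n => dist (p q.1) (p q.2) := ⟨_, rfl⟩
  rw [← hTdef]
  let P : ℕ → ℂ := fun i => p ⟨i % n, Nat.mod_lt _ hn0⟩
  have hPlt : ∀ i (h : i < n), P i = p ⟨i, h⟩ := by
    intro i h
    simp only [P]
    congr 1
    exact Fin.ext (Nat.mod_eq_of_lt h)
  have hPmod : ∀ i j, i % n = j % n → P i = P j := by
    intro i j h
    simp only [P]
    congr 1
    exact Fin.ext h
  have hPn : ∀ i, P (i + n) = P i := fun i => hPmod _ _ (Nat.add_mod_right i n)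
  have c0 : ∀ i j k, i < j → j < k → k < n → 0 < area (P i) (P j) (P k) := by
    intro i j k h1 h2 h3
    rw [hPlt i (by omega), hPlt j (by omega), hPlt k h3]
    exact hconv _ _ _ h1 h2
  have c1 : ∀ i j k, i < n → i < j → j < k → k < i + n → 0 < area (P i) (P j) (P k) := by
    intro i j k h0 h1 h2 h3
    by_cases hk : k < n
    · exact c0 i j k h1 h2 hk
    · have ek : P k = P (k - n) := by
        rw [← hPn (k - n)]
        congr 1
        omega
      by_cases hj : j < n
      · rw [ek, area_cyc, area_cyc]
        exact c0 (k - n) i j (by omega) h1 hj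
      · have ej : P j = P (j - n) := by
          rw [← hPn (j - n)]
          congr 1
          omega
        rw [ek, ej, area_cyc]
        exact c0 (j - n) (k - n) i (by omega) (by omega) h0
  have c2 : ∀ i j k, i < 2 * n → i < j → j < k → k < i + n → 0 < area (P i) (P j) (P k) := by
    intro i j k h0 h1 h2 h3
    by_cases hi : i < n
    · exact c1 i j k hi h1 h2 h3
    · have ei : P i = P (i - n) := by
        rw [← hPn (i - n)]
        congr 1
        omega
      have ej : P j = P (j - n) := by
        rw [← hPn (j - n)]
        congr 1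
        omega
      have ek : P k = P (k - n) := by
        rw [← hPn (k - n)]
        congr 1
        omega
      rw [ei, ej, ek]
      exact c1 _ _ _ (by omega) (by omega) (by omega) (by omega)
  have hT : ∀ x y, x < y → y < x + n → t ≤ dist (P x) (P y) → dist (P x) (P y) ∈ T := by
    intro x y h1 h2 h3
    rw [hTdef, Finset.mem_image]
    refine ⟨(⟨x % n, Nat.mod_lt _ hn0⟩, ⟨y % n, Nat.mod_lt _ hn0⟩),
      Finset.mem_filter.2 ⟨Finset.mem_univ _, ?_, h3⟩, rfl⟩
    intro he
    have he2 : x % n = y % n := congrArg Fin.val he
    have he3 : (y - x) % n = 0 := Nat.sub_mod_eq_zero_of_mod_eq he2.symm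
    have he4 := Nat.mod_eq_of_lt (by omega : y - x < n)
    omega
  have : Nonempty (Fin n) := ⟨⟨0, hn0⟩⟩
  obtain ⟨q, hq⟩ := Finite.exists_max (fun q : Fin n × Fin n => dist (p q.1) (p q.2))
  obtain ⟨a0, b0, hab0, hD0⟩ : ∃ a b : Fin n, a < b ∧
      ∀ x y : Fin n, dist (p x) (p y) ≤ dist (p a) (p b) := by
    rcases lt_trichotomy q.1 q.2 with h | h | h
    · exact ⟨q.1, q.2, h, fun x y => hq (x, y)⟩
    · exfalso
      have h1 := hq (⟨0, hn0⟩, ⟨1, by omega⟩)
      simp only at h1
      rw [h, dist_self] at h1
      have h2 := dist_le_zero.1 h1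
      have h3 := hconv ⟨0, hn0⟩ ⟨1, by omega⟩ ⟨2, by omega⟩ (by simp) (by simp)
      rw [h2] at h3
      unfold area at h3
      linarith
    · exact ⟨q.2, q.1, h, fun x y => by rw [dist_comm (p q.2)]; exact hq (x, y)⟩
  -- a diameter with `b - a` minimal
  obtain ⟨z, hz, hzm⟩ := Finset.exists_min_image
    (Finset.univ.filter fun z : Fin n × Fin n => z.1 < z.2 ∧
      dist (p z.1) (p z.2) = dist (p a0) (p b0)) (fun z => z.2.val - z.1.val)
    ⟨(a0, b0), Finset.mem_filter.2 ⟨Finset.mem_univ _, hab0, rfl⟩⟩
  obtain ⟨-, hab, hzD⟩ := Finset.mem_filter.1 hz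
  obtain ⟨a, ha⟩ : ∃ a, a = z.1 := ⟨_, rfl⟩
  obtain ⟨b, hb⟩ : ∃ b, b = z.2 := ⟨_, rfl⟩
  rw [← ha, ← hb] at hab hzD
  have hD : ∀ x y : Fin n, dist (p x) (p y) ≤ dist (p a) (p b) := by
    intro x y
    rw [hzD]
    exact hD0 x y
  have hmin : ∀ x y : Fin n, x < y → dist (p x) (p y) = dist (p a) (p b) →
      b.val - a.val ≤ y.val - x.val := by
    intro x y hxy hxyD
    rw [ha, hb]
    exact hzm (x, y) (Finset.mem_filter.2 ⟨Finset.mem_univ _, hxy, by rw [← hzD]; exact hxyD⟩)
  have hablt : a.val < b.val := hab
  have hbn := b.2
  have hPa : P a.val = p a := hPlt _ a.2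
  have hPb : P b.val = p b := hPlt _ b.2
  have hPan : P (a.val + n) = p a := by rw [hPn, hPa]
  have hpos : 0 < dist (p a) (p b) := by
    rcases (dist_nonneg : 0 ≤ dist (p a) (p b)).lt_or_eq with h | h
    · exact h
    · exfalso
      have h1 := hD ⟨0, hn0⟩ ⟨1, by omega⟩
      rw [← h] at h1
      have h2 := dist_le_zero.1 h1
      have h3 := hconv ⟨0, hn0⟩ ⟨1, by omega⟩ ⟨2, by omega⟩ (by simp) (by simp)
      rw [h2] at h3
      unfold area at h3
      linarith
  -- the arc from `a` to `b`
  obtain ⟨r, f, col, f0, fr, fm, fs, cl, cp⟩ :=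
    greedy (fun u v => dist (P u) (P v)) t (b.val + 1 - a.val) a.val
  have e1 : a.val + (b.val + 1 - a.val) = b.val + 1 := by omega
  rw [e1] at fr cl cp
  have hr : r ≤ T.card + 1 := by
    by_cases hr2 : 2 ≤ r
    · rcases classChain P a.val b.val T t
        (fun i j k _ h2 h3 h4 => c2 i j k (by omega) h2 h3 (by omega))
        (by rw [hPa, hPb]; exact hpos)
        (fun i j _ _ _ => by rw [hPa, hPb]; exact hD _ _)
        (fun x y _ h2 _ => hT x y h2 (by omega)) r f hr2 f0 fr fm fs with h | ⟨-, c, y, h1, h2, h3, h4⟩
      · exact h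
      · exfalso
        rw [hPlt c (by omega), hPlt y (by omega), hPa, hPb] at h4
        have := hmin ⟨c, by omega⟩ ⟨y, by omega⟩ h2 h4
        simp only at this
        omega
    · omega
  -- the arc from `b` to `a`
  obtain ⟨m, f', col', f0', fr', fm', fs', cl', cp'⟩ :=
    greedy (fun u v => dist (P u) (P v)) t (a.val + n - (b.val + 1)) (b.val + 1)
  have e2 : b.val + 1 + (a.val + n - (b.val + 1)) = a.val + n := by omega
  rw [e2] at fr' cl' cp'
  have hm : m ≤ T.card + 2 := by
    by_cases hm2 : 2 ≤ m
    · obtain ⟨F, hF⟩ : ∃ F : ℕ → ℕ, F = fun i => if i = 0 then b.val else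
        if i = m then a.val + n + 1 else f' i := ⟨_, rfl⟩
      have F0 : F 0 = b.val := by rw [hF]; simp
      have Fm : F m = a.val + n + 1 := by
        rw [hF]
        simp only [if_true]
        rw [if_neg (by omega)]
      have Fi : ∀ i, 0 < i → i < m → F i = f' i := by
        intro i h1 h2
        rw [hF]
        simp only
        rw [if_neg (by omega), if_neg (by omega)]
      have Fle : ∀ i, i < m → F i ≤ f' i := by
        intro i h2
        rcases Nat.eq_zero_or_pos i with h | h
        · subst h
          rw [F0, f0']
          omega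
        · exact (Fi i h h2).le
      have Fge : ∀ i, 0 < i → i ≤ m → f' i ≤ F i := by
        intro i h1 h2
        rcases Nat.eq_or_lt_of_le h2 with h | h
        · subst h
          rw [Fm, fr']
          omega
        · exact (Fi i h1 h).ge
      have FM : ∀ i, i < m → F i < F (i + 1) := fun i hi =>
        (Fle i hi).trans_lt ((fm' i hi).trans_le (Fge (i + 1) (by omega) (by omega)))
      have FS : ∀ i, i + 1 < m → ∃ u v, F i ≤ u ∧ u < F (i + 1) ∧ F (i + 1) ≤ v ∧
          v < F (i + 2) ∧ t ≤ dist (P u) (P v) := by
        intro i hi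
        obtain ⟨u, v, h1, h2, h3, h4, h5⟩ := fs' i hi
        have g1 := Fle i (by omega)
        have g2 := Fge (i + 1) (by omega) (by omega)
        have g3 := Fle (i + 1) (by omega)
        have g4 := Fge (i + 2) (by omega) (by omega)
        exact ⟨u, v, by omega, by omega, by omega, by omega, h5⟩
      rcases classChain P b.val (a.val + n) T t
        (fun i j k h1 h2 h3 h4 => c2 i j k (by omega) h2 h3 (by omega))
        (by rw [hPan, hPb, dist_comm]; exact hpos)
        (fun i j _ _ _ => by rw [hPan, hPb, dist_comm (p b)]; exact hD _ _)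
        (fun x y _ h2 _ => hT x y h2 (by omega)) m F hm2 F0 Fm FM FS with h | ⟨h, -⟩
      · omega
      · exact h
    · omega
  -- the colouring
  have hcol : (SimpleGraph.fromRel (fun a b : Fin n => t ≤ dist (p a) (p b))).Colorable
      (r + m) := by
    have hlt : ∀ v : Fin n, (if a.val ≤ v.val ∧ v.val ≤ b.val then col v.val else
        if b.val < v.val then r + col' v.val else r + col' (v.val + n)) < r + m := by
      intro v
      have hv := v.2
      split_ifs with h1 h2
      · have := cl v.val h1.1 (by omega)
        omega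
      · have := cl' v.val (by omega) (by omega)
        omega
      · have := cl' (v.val + n) (by omega) (by omega)
        omega
    have hne : ∀ u v : Fin n, u.val < v.val → t ≤ dist (p u) (p v) →
        (if a.val ≤ u.val ∧ u.val ≤ b.val then col u.val else
          if b.val < u.val then r + col' u.val else r + col' (u.val + n)) ≠
        (if a.val ≤ v.val ∧ v.val ≤ b.val then col v.val else
          if b.val < v.val then r + col' v.val else r + col' (v.val + n)) := by
      intro u v huv hd heq
      have hu := u.2
      have hv := v.2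
      have pu : P u.val = p u := hPlt _ u.2
      have pv : P v.val = p v := hPlt _ v.2
      have pun : P (u.val + n) = p u := by rw [hPn, pu]
      have pvn : P (v.val + n) = p v := by rw [hPn, pv]
      split_ifs at heq with h1 h2 h3 h4 h5 h6 h7
      · have := cp u.val v.val h1.1 huv (by omega) heq
        simp only [pu, pv] at this
        linarith
      · have := cl u.val h1.1 (by omega)
        omega
      · have := cl u.val h1.1 (by omega)
        omega
      · have := cl v.val h5.1 (by omega)
        omega
      · have := cp' u.val v.val (by omega) huv (by omega) (by omega)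
        simp only [pu, pv] at this
        linarith
      · omega
      · have := cl v.val (by omega) (by omega)
        omega
      · have := cp' v.val (u.val + n) (by omega) (by omega) (by omega) (by omega)
        simp only [pun, pv] at this
        rw [dist_comm] at this
        linarith
      · have := cp' (u.val + n) (v.val + n) (by omega) (by omega) (by omega) (by omega)
        simp only [pun, pvn] at this
        linarith
    refine ⟨SimpleGraph.Coloring.mk (fun v => ⟨_, hlt v⟩) ?_⟩
    intro u v huv heq
    rw [SimpleGraph.fromRel_adj] at huv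
    obtain ⟨hne2, hd⟩ := huv
    have heq2 := congrArg Fin.val heq
    simp only at heq2
    have hd1 : t ≤ dist (p u) (p v) := by
      rcases hd with hd | hd
      · exact hd
      · rw [dist_comm]
        exact hd
    rcases lt_trichotomy u.val v.val with h | h | h
    · exact hne u v h hd1 heq2
    · exact hne2 (Fin.ext h)
    · exact hne v u h (by rw [dist_comm]; exact hd1) heq2.symm
  exact hcol.mono (by omega)

end Pool.Agent.W239.AL.TwoKPlusThree
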